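import Pool.Agent.Lib.MP_b2f51a_al.Split.Final
import Pool.Agent.Lib.MP_b2f51a_al.KZ.Main

/-! The question under both conventions: with the derivation `d` and both highest weights in
degree zero every extension splits for `p > l`; modulo `δ` there is a non-split extension at
level `l` in characteristic `p` whenever `p` is odd and `p + (m + 2) = (l + 2) k` with `m + 2 ≤ l`,
for instance at level `3` in characteristic `23`. -/

open Pool.Agent.Lib.MP_b2f51a_al

universe u

/-- `0 → V(wt l m) → E → V(wt l n) → 0` is a short exact sequence of `U_F`-modules, `E` is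
integrable of level `l` and graded by `g`, the generator of the submodule has degree `0` and the
generator of the quotient has a lift of degree `a`. -/
structure Pool.Agent.Results.MP_b2f51a_al.BothReadingsEveryLevel.IsExt (F : Type u) [Field F] (l n m : ℕ)
    (a : ℤ) {E : Type u} [AddCommGroup E] [Module (UF F) E]
    (i : Weyl F (wt l m) →ₗ[UF F] E) (π : E →ₗ[UF F] Weyl F (wt l n))
    (g : ℤ → AddSubgroup E) : Prop where
  integrable : IsIntegrableOfLevel F l E
  grading : IsDegreeGrading F g
  sub : i (weylGen F (wt l m)) ∈ g 0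
  quot : ∃ y ∈ g a, π y = weylGen F (wt l n)
  inj : Function.Injective i
  surj : Function.Surjective π
  exact : Function.Exact i π

theorem Pool.Agent.Results.MP_b2f51a_al.BothReadingsEveryLevel.result :
    (∀ (F : Type u) [Field F] (p : ℕ) [CharP F p] (l n m : ℕ), n ≤ l → m ≤ l → l < p →
      ∀ (E : Type u) [AddCommGroup E] [Module (UF F) E]
        (i : Weyl F (wt l m) →ₗ[UF F] E) (π : E →ₗ[UF F] Weyl F (wt l n))
        (g : ℤ → AddSubgroup E), IsExt F l n m 0 i π g →
        ∃ s : Weyl F (wt l n) →ₗ[UF F] E,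
          π ∘ₗ s = LinearMap.id ∧ s (weylGen F (wt l n)) ∈ g 0) ∧
    (∀ (F : Type u) [Field F] (p : ℕ) [CharP F p] (l m k : ℕ), 2 < p → m + 2 ≤ l →
      p + (m + 2) = (l + 2) * k →
      ∃ (E : Type u) (_ : AddCommGroup E) (_ : Module (UF F) E)
        (i : Weyl F (wt l m) →ₗ[UF F] E) (π : E →ₗ[UF F] Weyl F (wt l (m + 2)))
        (g : ℤ → AddSubgroup E), IsExt F l (m + 2) m (-k) i π g ∧
        ¬ ∃ s : Weyl F (wt l (m + 2)) →ₗ[UF F] E, π ∘ₗ s = LinearMap.id) := by
  refine ⟨fun _ _ p _ _ _ _ hn hm hp _ _ _ i π _ h => splits (d := 0) p hn hm hp i π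
    h.integrable.weight h.integrable.integrable h.grading h.sub h.quot h.exact,
    fun F _ p _ l m k hp hm hk => ?_⟩
  obtain ⟨E, _, _, i, π, h1, ⟨g, h2, h3, h4⟩, h5, h6, h7, h8⟩ :=
    KZ.main F p (CharP.char_prime_of_ne_zero F (by omega)) hp hm hk
  exact ⟨E, _, _, i, π, g, ⟨h1, h2, h3, h4, h5, h6, h7⟩, h8⟩
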