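import Pool.Agent.Lib.MP_b2f51a_al.Split.Final

/-! Affine `sl_2` with the derivation `d`, level `l`, characteristic `p > l`: every extension of
the Weyl module `V((l - n) ω_0 + n ω_1 + a δ)`, `a ≥ 0`, by `V((l - m) ω_0 + m ω_1)` splits. -/

open Pool.Agent.Lib.MP_b2f51a_al

universe u

theorem Pool.Agent.Results.MP_b2f51a_al.GradedSplit.result (F : Type u) [Field F] (p : ℕ)
    [CharP F p] (l n m : ℕ) (hn : n ≤ l) (hm : m ≤ l) (hp : l < p)
    (E : Type u) [AddCommGroup E] [Module (UF F) E]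
    (hweight : AddSubgroup.closure
      {x : E | ∃ mu : Fin 2 → ℤ, mu 0 + mu 1 = l ∧ IsWeightVector F mu x} = ⊤)
    (hint : ∀ (x : E) (j : Fin 2), ∃ N : ℕ, ∀ k, N ≤ k →
      tens (1 : F) (eZ j k) • x = 0 ∧ tens (1 : F) (fZ j k) • x = 0)
    (g : ℤ → AddSubgroup E) (hg : IsDegreeGrading F g)
    (i : Weyl F (wt l m) →ₗ[UF F] E) (π : E →ₗ[UF F] Weyl F (wt l n))
    (hex : Function.Exact i π) (a : ℕ)
    (hi : i (weylGen F (wt l m)) ∈ g 0) (hπ : ∃ y ∈ g a, π y = weylGen F (wt l n)) :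
    ∃ s : Weyl F (wt l n) →ₗ[UF F] E, π ∘ₗ s = LinearMap.id ∧ s (weylGen F (wt l n)) ∈ g a :=
  splits p hn hm hp i π hweight hint hg hi hπ hex
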