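import Pool.Agent.Lib.MP_b2f51a_al.KZ.Main

/-! For every level `l` and every odd prime `p` that is not `0`, `1` or `-1` modulo `l + 2`, that
is `p + (m + 2) = (l + 2) k` with `m + 2 ≤ l`: a non-split extension of the Weyl module of highest
weight `(l - m - 2) ω_0 + (m + 2) ω_1` by the Weyl module of highest weight `(l - m) ω_0 + m ω_1`
of affine `sl_2` in characteristic `p`. For `l = 3`, `m = 0`, `k = 5` this is `p = 23 > 18`. -/

open Pool.Agent.Lib.MP_b2f51a_al

universe u

theorem Pool.Agent.Results.MP_b2f51a_al.NonSplitEveryLevel.result (F : Type u) [Field F] (p : ℕ)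
    [CharP F p] (hp : 2 < p) (l m k : ℕ) (hm : m + 2 ≤ l) (hk : p + (m + 2) = (l + 2) * k) :
    ∃ (E : Type u) (_ : AddCommGroup E) (_ : Module (UF F) E)
      (i : Weyl F (wt l m) →ₗ[UF F] E) (π : E →ₗ[UF F] Weyl F (wt l (m + 2))),
      IsIntegrableOfLevel F l E ∧
      (∃ g : ℤ → AddSubgroup E, IsDegreeGrading F g ∧ i (weylGen F (wt l m)) ∈ g 0 ∧
        ∃ y ∈ g (-k), π y = weylGen F (wt l (m + 2))) ∧
      Function.Injective i ∧ Function.Surjective π ∧ Function.Exact i π ∧
      ¬ ∃ s : Weyl F (wt l (m + 2)) →ₗ[UF F] E, π ∘ₗ s = LinearMap.id :=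
  KZ.main F p (CharP.char_prime_of_ne_zero F (by omega)) hp hm hk
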