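import Pool.Agent.FS.SingVec.Main

/-! For every level `l` and every odd prime `p` with `p + (m + 2) = (l + 2) k`, `m + 2 ≤ l`: the
Weyl module of highest weight `(l - m) ω_0 + m ω_1` of affine `sl_2` in characteristic `p` receives
a non-zero, non-surjective homomorphism from the Weyl module of highest weight
`(l - m - 2) ω_0 + (m + 2) ω_1`; the generator goes to degree `-k` and the image has no complement.
For `l = 3`, `m = 0`, `k = 5` this is `p = 23 > 18`. -/

open Pool.Agent.Lib.MP_b2f51a_al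

universe u

theorem Pool.Agent.Results.MP_b2f51a_al.SingularVector.result (F : Type u) [Field F] (p : ℕ)
    [CharP F p] (hp : 2 < p) (l m k : ℕ) (hm : m + 2 ≤ l) (hk : p + (m + 2) = (l + 2) * k) :
    ∃ s : Weyl F (wt l (m + 2)) →ₗ[UF F] Weyl F (wt l m),
      s ≠ 0 ∧ ¬ Function.Surjective s ∧ (∀ N, ¬ IsCompl (LinearMap.range s) N) ∧
      ∃ g : ℤ → AddSubgroup (Weyl F (wt l m)), IsDegreeGrading F g ∧
        weylGen F (wt l m) ∈ g 0 ∧ s (weylGen F (wt l (m + 2))) ∈ g (-k) := by
  obtain ⟨s, hg, hN⟩ :=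
    Pool.Agent.FS.SingVec.main F p (CharP.char_prime_of_ne_zero F (by omega)) hp hm hk
  refine ⟨s, fun h => hN ⊤ ?_, fun h => hN ⊥ ?_, hN, hg⟩
  · rw [h, LinearMap.range_zero]
    exact isCompl_bot_top
  · rw [LinearMap.range_eq_top.2 h]
    exact isCompl_top_bot
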